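import Pool.Agent.N912.MS.Stm
import Pool.Agent.W78.GA.Basic
import Pool.Agent.H376R2.MR.Smoo
import Pool.Agent.H376R2.MR.Mom

/-!
# Project MS (helper912), part MOM2 (helper771): basic lemmas
-/

set_option autoImplicit false

namespace Pool.Agent.N771.MS

open Finset
open Pool.Agent.N912.MS
open Pool.Agent.H376R2.MR (ch w cell ge smoo_ge_le smoo_tuple_sum smoo_lcm_sum smoo_sigma_cell
  smoo_prod_dvd smoo_mem_cell mm mm_le mom_ch_add mom_w_nonneg mom_w_le_one)
open Pool.Agent.W78.GA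
open Pool.Agent.H970R2.X (cellP P1)

theorem hD : (0 : ℤ) ^ 2 < 4 * 1 := by norm_num

theorem chi_mul (κ : ℤ × ℤ) {z u : Gi} (hz : z ≠ 0) (hu : u ≠ 0) :
    chi κ (z * u) = chi κ z * chi κ u := by
  unfold chi
  rw [ps_mul hD, nm_mul, Nat.cast_mul, Real.log_mul (nm_posR hD hz).ne' (nm_posR hD hu).ne',
    mom_ch_add]
  ring

theorem chi_one (κ : ℤ × ℤ) : chi κ 1 = 1 := by
  unfold chi
  rw [nm_one]
  have h : ps κ.1 (1 : Gi) = 1 := by
    have := ps_natCast (t := 0) (c := 1) (n := 1) one_pos κ.1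
    simpa using this
  rw [h]
  simp [ch]

theorem card_ball {X : ℝ} (hX : 1 ≤ X) : ((ball 0 1 X).card : ℝ) ≤ 9 * X := by
  set N : ℕ := ⌊Real.sqrt X⌋₊ with hN
  have hs : 1 ≤ Real.sqrt X := by
    rw [Real.one_le_sqrt]
    exact hX
  have h1 : (ball 0 1 X).card ≤ ((Icc (-(N : ℤ)) N) ×ˢ (Icc (-(N : ℤ)) N)).card := by
    refine card_le_card_of_injOn (fun z : Gi => (z.re, z.im)) ?_ ?_
    · intro z hz
      rw [mem_coe, mem_ball hD] at hz
      have h2 := nm_castR hD z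
      have hb : ∀ x : ℤ, (x : ℝ) ^ 2 ≤ X → x ∈ Icc (-(N : ℤ)) N := by
        intro x hx
        have h3 : |(x : ℝ)| ≤ Real.sqrt X := Real.abs_le_sqrt hx
        have h4 : ((x.natAbs : ℕ) : ℝ) ≤ Real.sqrt X := by
          rw [Nat.cast_natAbs]
          push_cast
          exact h3
        have h5 : x.natAbs ≤ N := Nat.le_floor h4
        rw [mem_Icc]
        omega
      have h3 : (nm z : ℝ) ≤ X := hz.2
      rw [h2] at h3
      push_cast at h3
      rw [mem_coe, mem_product]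
      refine ⟨hb _ ?_, hb _ ?_⟩
      · nlinarith [sq_nonneg (z.im : ℝ)]
      · nlinarith [sq_nonneg (z.re : ℝ)]
    · intro z _ u _ h
      simp only [Prod.mk.injEq] at h
      exact QuadraticAlgebra.ext h.1 h.2
  have h2 : ((Icc (-(N : ℤ)) N) ×ˢ (Icc (-(N : ℤ)) N)).card = (2 * N + 1) * (2 * N + 1) := by
    rw [card_product, Int.card_Icc]
    congr 1 <;> omega
  rw [h2] at h1
  have h3 : ((ball 0 1 X).card : ℝ) ≤ (2 * N + 1) * (2 * N + 1) := by exact_mod_cast h1
  have h4 : (N : ℝ) ≤ Real.sqrt X := Nat.floor_le (Real.sqrt_nonneg X)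
  have h5 : Real.sqrt X * Real.sqrt X = X := Real.mul_self_sqrt (by linarith)
  have h6 : (2 * (N : ℝ) + 1) ≤ 3 * Real.sqrt X := by linarith
  have h7 : (0 : ℝ) ≤ 2 * (N : ℝ) + 1 := by positivity
  calc ((ball 0 1 X).card : ℝ) ≤ (2 * N + 1) * (2 * N + 1) := h3
    _ ≤ (3 * Real.sqrt X) * (3 * Real.sqrt X) := mul_le_mul h6 h6 h7 (by linarith)
    _ = 9 * (Real.sqrt X * Real.sqrt X) := by ring
    _ = 9 * X := by rw [h5]

open scoped Classical in
/-- multiples of an element in a ball -/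
theorem card_mult {L : Gi} (hL : L ≠ 0) {X : ℝ} (hX : 0 ≤ X) :
    (((ball 0 1 X).filter (fun z => L ∣ z)).card : ℝ) ≤ 9 * X / nm L := by
  have hn : (0 : ℝ) < nm L := nm_posR hD hL
  by_cases h : 1 ≤ X / nm L
  · have h1 : ((ball 0 1 X).filter (fun z => L ∣ z)).card ≤ (ball 0 1 (X / nm L)).card := by
      have hch : ∀ z : Gi, ∃ m : Gi, L ∣ z → z = L * m := fun z => by
        by_cases hz : L ∣ z
        · obtain ⟨m, hm⟩ := hz
          exact ⟨m, fun _ => hm⟩
        · exact ⟨0, fun h => absurd h hz⟩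
      choose g hg using hch
      refine card_le_card_of_injOn g ?_ ?_
      · intro z hz
        rw [mem_coe, mem_filter, mem_ball hD] at hz
        rw [mem_coe, mem_ball hD]
        have h2 := hg z hz.2
        refine ⟨(one_le_nm hD).2 fun h0 => (one_le_nm hD).1 hz.1.1 (by rw [h2, h0, mul_zero]), ?_⟩
        rw [le_div_iff₀ hn]
        have h3 := hz.1.2
        rw [h2, nm_mul] at h3
        push_cast at h3
        linarith
      · intro z hz u hu he
        rw [mem_coe, mem_filter] at hz hu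
        rw [hg z hz.2, hg u hu.2, he]
    have h2 := card_ball h
    have h3 : (((ball 0 1 X).filter (fun z => L ∣ z)).card : ℝ) ≤ (ball 0 1 (X / nm L)).card := by
      exact_mod_cast h1
    refine h3.trans (h2.trans (le_of_eq ?_))
    ring
  · have h1 : (ball 0 1 X).filter (fun z => L ∣ z) = ∅ := by
      rw [filter_eq_empty_iff]
      intro z hz hd
      rw [mem_ball hD] at hz
      apply h
      rw [le_div_iff₀ hn, one_mul]
      refine le_trans ?_ hz.2
      exact_mod_cast Nat.le_of_dvd hz.1 (nm_dvd hd)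
    rw [h1]
    simp only [card_empty, Nat.cast_zero]
    positivity

open scoped Classical in
theorem dp_image {ι : Type} (I : Finset ι) (φ : ι → Gi) (c : ι → ℂ) (κ : ℤ × ℤ) :
    ∑ i ∈ I, c i * chi κ (φ i) =
      DP2 (I.image φ) (fun z => ∑ i ∈ I.filter (fun i => φ i = z), c i) κ := by
  unfold DP2
  rw [← sum_fiberwise_of_maps_to (g := φ) (t := I.image φ) (fun i hi => mem_image_of_mem φ hi)]
  refine sum_congr rfl fun z _ => ?_
  rw [sum_mul]
  refine sum_congr rfl fun i hi => ?_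
  rw [(mem_filter.1 hi).2]

/-- the index of the piece -/
noncomputable def idx (A : ℝ) (z : Gi) : ℕ := ⌊Real.log ((nm z : ℝ) / A)⌋₊

theorem idx_spec {A : ℝ} (hA : 1 ≤ A) {m : ℕ} {z : Gi} (h1 : A ≤ nm z)
    (h2 : (nm z : ℝ) ≤ A * Real.exp m) : idx A z < m + 1 ∧ A * Real.exp (idx A z) ≤ nm z ∧
      (nm z : ℝ) ≤ A * Real.exp (idx A z) * Real.exp 1 := by
  have hA0 : 0 < A := by linarith
  have hn : (0 : ℝ) < nm z := by linarith
  have hq : 1 ≤ (nm z : ℝ) / A := by rwa [le_div_iff₀ hA0, one_mul]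
  have hl : 0 ≤ Real.log ((nm z : ℝ) / A) := Real.log_nonneg hq
  have h3 := Nat.floor_le hl
  have h4 := Nat.lt_floor_add_one (Real.log ((nm z : ℝ) / A))
  have h5 : Real.log ((nm z : ℝ) / A) ≤ m := by
    rw [Real.log_le_iff_le_exp (by positivity), div_le_iff₀ hA0]
    linarith
  refine ⟨?_, ?_, ?_⟩
  · have : idx A z ≤ m := by
      have : (idx A z : ℝ) ≤ m := h3.trans h5
      exact_mod_cast this
    omega
  · have h6 : Real.exp (idx A z) ≤ (nm z : ℝ) / A :=
      (Real.le_log_iff_exp_le (by positivity)).1 h3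
    rw [le_div_iff₀ hA0] at h6
    linarith
  · have h6 : (nm z : ℝ) / A ≤ Real.exp ((idx A z : ℝ) + 1) :=
      ((Real.log_lt_iff_lt_exp (by positivity)).1 h4).le
    rw [div_le_iff₀ hA0, Real.exp_add] at h6
    linarith

/-- the large sieve for long windows -/
theorem ls_wide {C : ℝ} (hC : 0 < C) (hls : ∀ (X : ℝ) (K : ℕ) (s : Finset Gi) (a : Gi → ℂ), 1 ≤ X →
    1 ≤ K → s ⊆ win 0 1 X → ∑ κ ∈ FB K, ‖DP2 s a κ‖ ^ 2 ≤ C * (K + X) * ∑ z ∈ s, ‖a z‖ ^ 2)
    {A : ℝ} (hA : 1 ≤ A) (m K : ℕ) (hK : 1 ≤ K) (s : Finset Gi) (a : Gi → ℂ)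
    (hs : ∀ z ∈ s, A ≤ nm z ∧ (nm z : ℝ) ≤ A * Real.exp m) :
    ∑ κ ∈ FB K, ‖DP2 s a κ‖ ^ 2 ≤ (m + 1) * C * ∑ z ∈ s, ((K : ℝ) + nm z) * ‖a z‖ ^ 2 := by
  classical
  have hA0 : 0 < A := by linarith
  have hmaps : ∀ z ∈ s, idx A z ∈ range (m + 1) := fun z hz =>
    mem_range.2 (idx_spec hA (hs z hz).1 (hs z hz).2).1
  have h1 : ∀ κ, DP2 s a κ = ∑ j ∈ range (m + 1), DP2 (s.filter (fun z => idx A z = j)) a κ := by
    intro κ
    unfold DP2
    exact (sum_fiberwise_of_maps_to hmaps _).symm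
  have h2 : ∀ κ, ‖DP2 s a κ‖ ^ 2 ≤ (m + 1) *
      ∑ j ∈ range (m + 1), ‖DP2 (s.filter (fun z => idx A z = j)) a κ‖ ^ 2 := by
    intro κ
    rw [h1 κ]
    have h3 := sq_sum_le_card_mul_sum_sq (s := range (m + 1))
      (f := fun j => ‖DP2 (s.filter (fun z => idx A z = j)) a κ‖)
    rw [card_range] at h3
    push_cast at h3
    exact (pow_le_pow_left₀ (norm_nonneg _) (norm_sum_le _ _) 2).trans h3
  have h4 : ∀ j ∈ range (m + 1), ∑ κ ∈ FB K, ‖DP2 (s.filter (fun z => idx A z = j)) a κ‖ ^ 2 ≤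
      C * ∑ z ∈ s.filter (fun z => idx A z = j), ((K : ℝ) + nm z) * ‖a z‖ ^ 2 := by
    intro j _
    have hX : 1 ≤ A * Real.exp j := by
      have : 1 ≤ Real.exp (j : ℝ) := Real.one_le_exp (Nat.cast_nonneg j)
      nlinarith
    have hz : ∀ z ∈ s.filter (fun z => idx A z = j), A * Real.exp j ≤ nm z ∧
        (nm z : ℝ) ≤ A * Real.exp j * Real.exp 1 := by
      intro z hz
      rw [mem_filter] at hz
      have := idx_spec hA (hs z hz.1).1 (hs z hz.1).2
      rw [hz.2] at this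
      exact this.2
    have h5 := hls (A * Real.exp j) K (s.filter (fun z => idx A z = j)) a hX hK (by
      intro z hz'
      obtain ⟨h6, h7⟩ := hz z hz'
      have he : Real.exp 1 ≤ Real.exp 2 := Real.exp_le_exp.2 (by norm_num)
      have he1 : 1 ≤ Real.exp 2 := Real.one_le_exp (by norm_num)
      rw [mem_win hD]
      have hz0 : z ≠ 0 := by
        rintro rfl
        rw [nm_zero] at h6
        have : (0 : ℝ) < A * Real.exp j := by positivity
        simp at h6
        linarith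
      refine ⟨(one_le_nm hD).2 hz0, ?_, ?_⟩
      · rw [div_le_iff₀ (by positivity)]
        nlinarith
      · nlinarith)
    refine h5.trans ?_
    rw [mul_assoc, mul_sum]
    refine mul_le_mul_of_nonneg_left (sum_le_sum fun z hz' => ?_) hC.le
    refine mul_le_mul_of_nonneg_right ?_ (by positivity)
    have := (hz z hz').1
    linarith
  calc ∑ κ ∈ FB K, ‖DP2 s a κ‖ ^ 2
      ≤ ∑ κ ∈ FB K, (m + 1) *
          ∑ j ∈ range (m + 1), ‖DP2 (s.filter (fun z => idx A z = j)) a κ‖ ^ 2 :=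
        sum_le_sum fun κ _ => h2 κ
    _ = (m + 1) * ∑ j ∈ range (m + 1), ∑ κ ∈ FB K,
          ‖DP2 (s.filter (fun z => idx A z = j)) a κ‖ ^ 2 := by
        rw [← mul_sum, sum_comm]
    _ ≤ (m + 1) * ∑ j ∈ range (m + 1),
          C * ∑ z ∈ s.filter (fun z => idx A z = j), ((K : ℝ) + nm z) * ‖a z‖ ^ 2 :=
        mul_le_mul_of_nonneg_left (sum_le_sum h4) (by positivity)
    _ = (m + 1) * C * ∑ z ∈ s, ((K : ℝ) + nm z) * ‖a z‖ ^ 2 := by
        rw [← mul_sum, sum_fiberwise_of_maps_to hmaps]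
        ring

/-- sums over windows -/
theorem win_sum {g : Gi → ℝ} (hg : ∀ z, 0 ≤ g z) {B : ℝ}
    (hB : ∀ X : ℝ, 1 ≤ X → ∑ z ∈ ball 0 1 X, g z ≤ B * X)
    {A : ℝ} (hA : 1 ≤ A) (m : ℕ) (s : Finset Gi)
    (hs : ∀ z ∈ s, A ≤ nm z ∧ (nm z : ℝ) ≤ A * Real.exp m) :
    ∑ z ∈ s, g z / nm z ≤ (m + 1) * (B * Real.exp 1) := by
  classical
  have hA0 : 0 < A := by linarith
  have hmaps : ∀ z ∈ s, idx A z ∈ range (m + 1) := fun z hz =>
    mem_range.2 (idx_spec hA (hs z hz).1 (hs z hz).2).1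
  rw [← sum_fiberwise_of_maps_to hmaps]
  have h1 : ∀ j ∈ range (m + 1), ∑ z ∈ s.filter (fun z => idx A z = j), g z / nm z ≤
      B * Real.exp 1 := by
    intro j _
    have he0 : 0 < Real.exp (j : ℝ) := Real.exp_pos _
    have he1 : 1 ≤ Real.exp (j : ℝ) := Real.one_le_exp (Nat.cast_nonneg j)
    have he2 : 1 ≤ Real.exp (1 : ℝ) := Real.one_le_exp zero_le_one
    have hAj : 0 < A * Real.exp j := by positivity
    have hX : 1 ≤ A * Real.exp j * Real.exp 1 := by
      have : 1 ≤ A * Real.exp j := by nlinarith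
      nlinarith
    have h2 := hB _ hX
    have h3 : ∑ z ∈ s.filter (fun z => idx A z = j), g z / nm z ≤
        ∑ z ∈ s.filter (fun z => idx A z = j), g z / (A * Real.exp j) := by
      refine sum_le_sum fun z hz => ?_
      rw [mem_filter] at hz
      have h4 := (idx_spec hA (hs z hz.1).1 (hs z hz.1).2).2.1
      rw [hz.2] at h4
      exact div_le_div_of_nonneg_left (hg z) hAj h4
    refine h3.trans ?_
    rw [← sum_div, div_le_iff₀ hAj]
    have h5 : ∑ z ∈ s.filter (fun z => idx A z = j), g z ≤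
        ∑ z ∈ ball 0 1 (A * Real.exp j * Real.exp 1), g z := by
      refine sum_le_sum_of_subset_of_nonneg (fun z hz => ?_) fun z _ _ => hg z
      rw [mem_filter] at hz
      obtain ⟨_, h6, h7⟩ := idx_spec hA (hs z hz.1).1 (hs z hz.1).2
      rw [hz.2] at h6 h7
      rw [mem_ball hD]
      refine ⟨(one_le_nm hD).2 ?_, h7⟩
      rintro rfl
      rw [nm_zero] at h6
      simp at h6
      linarith
    refine h5.trans (h2.trans (le_of_eq ?_))
    ring
  refine (sum_le_sum h1).trans (le_of_eq ?_)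
  rw [sum_const, card_range, nsmul_eq_mul]
  push_cast
  ring

end Pool.Agent.N771.MS
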