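import Pool.Agent.N771.MS.B1

/-!
# Project MS (helper912), part MOM2 (helper771): products of the chosen elements
-/

set_option autoImplicit false

namespace Pool.Agent.N771.MS

open Finset
open Pool.Agent.N912.MS
open Pool.Agent.H376R2.MR (ch w cell ge smoo_ge_le smoo_tuple_sum smoo_lcm_sum smoo_sigma_cell
  smoo_prod_dvd smoo_mem_cell mm mm_le mom_ch_add mom_w_nonneg mom_w_le_one)
open Pool.Agent.W78.GA
open Pool.Agent.H970R2.X (cellP P1)

/-- the primes used -/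
def Gp (p : ℕ) : Prop := p.Prime ∧ nm (gq p) = p

theorem gp_of {p : ℕ} (hp : p.Prime) (h4 : p % 4 = 1) : Gp p := by
  refine ⟨hp, ?_⟩
  have : Fact p.Prime := ⟨hp⟩
  obtain ⟨a, b, hab⟩ := Nat.Prime.sq_add_sq (p := p) (by omega)
  have hex : ∃ z : Gi, nm z = p := by
    refine ⟨⟨a, b⟩, ?_⟩
    unfold nm
    simp only
    have e : (a : ℤ) ^ 2 + 0 * a * b + 1 * (b : ℤ) ^ 2 = (p : ℤ) := by
      rw [← hab]
      push_cast
      ring
    rw [e]
    rfl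
  unfold gq
  rw [dif_pos hex]
  exact hex.choose_spec

/-- the product of the elements for the prime factors of `D` -/
noncomputable def Gq (D : ℕ) : Gi := D.factorization.prod fun p k => gq p ^ k

theorem Gq_mul {D E : ℕ} (hD0 : D ≠ 0) (hE : E ≠ 0) : Gq (D * E) = Gq D * Gq E := by
  unfold Gq
  rw [Nat.factorization_mul hD0 hE]
  exact Finsupp.prod_add_index' (fun _ => pow_zero _) (fun _ _ _ => pow_add _ _ _)

theorem Gq_one : Gq 1 = 1 := by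
  unfold Gq
  simp

theorem Gq_prime {p : ℕ} (hp : p.Prime) : Gq p = gq p := by
  unfold Gq
  rw [hp.factorization]
  exact (Finsupp.prod_single_index (h := fun p k => gq p ^ k) (pow_zero _)).trans (pow_one _)

theorem Gq_prod {ι : Type} (s : Finset ι) (P : ι → ℕ) (hP : ∀ i ∈ s, P i ≠ 0) :
    Gq (∏ i ∈ s, P i) = ∏ i ∈ s, Gq (P i) := by
  classical
  induction s using Finset.induction_on with
  | empty => simpa using Gq_one
  | insert i s hi ih =>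
    have h := fun j hj => hP j (mem_insert_of_mem hj)
    rw [prod_insert hi, prod_insert hi, Gq_mul (hP i (mem_insert_self i s))
      (prod_ne_zero_iff.2 h), ih h]

theorem nm_prod' {ι : Type} (s : Finset ι) (f : ι → Gi) : nm (∏ i ∈ s, f i) = ∏ i ∈ s, nm (f i) := by
  classical
  induction s using Finset.induction_on with
  | empty => simp
  | insert a s ha ih => rw [prod_insert ha, prod_insert ha, nm_mul, ih]

/-- all prime factors are used -/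
def Gd (D : ℕ) : Prop := D ≠ 0 ∧ ∀ p : ℕ, p.Prime → p ∣ D → Gp p

theorem nm_Gq {D : ℕ} (h : Gd D) : nm (Gq D) = D := by
  unfold Gq
  rw [Finsupp.prod, nm_prod']
  conv_rhs => rw [← Nat.prod_factorization_pow_eq_self h.1]
  rw [Finsupp.prod]
  refine prod_congr rfl fun p hp => ?_
  have hp' : p ∈ D.primeFactors := hp
  rw [nm_pow, (h.2 p (Nat.prime_of_mem_primeFactors hp') (Nat.dvd_of_mem_primeFactors hp')).2]

theorem Gq_ne {D : ℕ} (h : Gd D) : Gq D ≠ 0 := by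
  intro h0
  have := nm_Gq h
  rw [h0, nm_zero] at this
  exact h.1 this.symm

theorem coprime_gq {p q : ℕ} (hp : Gp p) (hq : Gp q) (hne : p ≠ q) : IsCoprime (gq p) (gq q) := by
  have h1 : Nat.Coprime p q := (Nat.coprime_primes hp.1 hq.1).2 hne
  have h2 : IsCoprime (p : ℤ) (q : ℤ) := Nat.isCoprime_iff_coprime.2 h1
  have h3 := h2.map (Int.castRingHom Gi)
  have e1 : Int.castRingHom Gi (p : ℤ) = star (gq p) * gq p := by
    rw [star_mul_self' hD, hp.2]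
    simp
  have e2 : Int.castRingHom Gi (q : ℤ) = star (gq q) * gq q := by
    rw [star_mul_self' hD, hq.2]
    simp
  rw [e1, e2] at h3
  exact h3.of_mul_left_right.of_mul_right_right

theorem Gd.lcm {D E : ℕ} (hd : Gd D) (he : Gd E) : Gd (D.lcm E) := by
  refine ⟨Nat.lcm_ne_zero hd.1 he.1, fun p hp h => ?_⟩
  have h1 : p ∣ D * E := h.trans (Nat.lcm_dvd_mul D E)
  rcases (Nat.Prime.dvd_mul hp).1 h1 with h2 | h2
  · exact hd.2 p hp h2
  · exact he.2 p hp h2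

theorem pow_dvd {D : ℕ} {n : Gi} (hn : Gq D ∣ n) (p : ℕ) : gq p ^ D.factorization p ∣ n := by
  by_cases h : p ∈ D.factorization.support
  · refine dvd_trans ?_ hn
    exact dvd_prod_of_mem (fun p => gq p ^ D.factorization p) h
  · rw [Finsupp.notMem_support_iff.1 h, pow_zero]
    exact one_dvd n

theorem lcm_dvd {D E : ℕ} (hd : Gd D) (he : Gd E) {n : Gi} (h1 : Gq D ∣ n) (h2 : Gq E ∣ n) :
    Gq (D.lcm E) ∣ n := by
  have hl := hd.lcm he
  unfold Gq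
  rw [Finsupp.prod]
  refine prod_dvd_of_coprime ?_ fun p hp => ?_
  · intro p hp q hq hne
    have hp' : p ∈ (D.lcm E).primeFactors := hp
    have hq' : q ∈ (D.lcm E).primeFactors := hq
    exact (coprime_gq (hl.2 p (Nat.prime_of_mem_primeFactors hp') (Nat.dvd_of_mem_primeFactors hp'))
      (hl.2 q (Nat.prime_of_mem_primeFactors hq') (Nat.dvd_of_mem_primeFactors hq')) hne).pow
  · rw [Nat.factorization_lcm hd.1 he.1, Finsupp.sup_apply]
    rcases le_total (D.factorization p) (E.factorization p) with h | h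
    · rw [sup_eq_right.2 h]
      exact pow_dvd h2 p
    · rw [sup_eq_left.2 h]
      exact pow_dvd h1 p

/-! ### Tuples -/

/-- the primes of the cell -/
noncomputable abbrev cl (H r : ℕ) : Finset ℕ := cellP (P1 4) H r

theorem mem_cl {H r p : ℕ} (h : p ∈ cl H r) : Gp p ∧ Real.exp ((r : ℝ) / H) ≤ p ∧
    (p : ℝ) ≤ Real.exp (((r : ℝ) + 1) / H) := by
  classical
  unfold cl cellP at h
  rw [mem_filter] at h
  obtain ⟨h1, h2⟩ := h
  have h3 := smoo_mem_cell h1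
  refine ⟨gp_of h3.1 ?_, h3.2⟩
  unfold P1 at h2
  omega

theorem cl_sub (H r : ℕ) : cl H r ⊆ cell H r := by
  classical
  unfold cl cellP
  exact filter_subset _ _

theorem cl_sum {H : ℕ} (hH : 1 ≤ H) (r : ℕ) : ∑ p ∈ cl H r, 1 / (p : ℝ) ≤ 2 := by
  refine le_trans ?_ (mm_le H r hH)
  unfold mm
  exact sum_le_sum_of_subset_of_nonneg (cl_sub H r) fun _ _ _ => by positivity

/-- the tuples -/
noncomputable def TT (H r ℓ : ℕ) : Finset (Fin ℓ → ℕ) := Fintype.piFinset fun _ : Fin ℓ => cl H r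

theorem mem_TT {H r ℓ : ℕ} {τ : Fin ℓ → ℕ} : τ ∈ TT H r ℓ ↔ ∀ i, τ i ∈ cl H r := by
  unfold TT
  rw [Fintype.mem_piFinset]

theorem TT_gd {H r ℓ : ℕ} {τ : Fin ℓ → ℕ} (h : τ ∈ TT H r ℓ) : Gd (∏ i, τ i) := by
  rw [mem_TT] at h
  refine ⟨prod_ne_zero_iff.2 fun i _ => (mem_cl (h i)).1.1.ne_zero, fun p hp hd => ?_⟩
  rw [Prime.dvd_finsetProd_iff hp.prime] at hd
  obtain ⟨i, _, hi⟩ := hd
  rw [(Nat.prime_dvd_prime_iff_eq hp (mem_cl (h i)).1.1).1 hi]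
  exact (mem_cl (h i)).1

theorem TT_bd {H r ℓ : ℕ} {τ : Fin ℓ → ℕ} (h : τ ∈ TT H r ℓ) :
    Real.exp ((r : ℝ) * ℓ / H) ≤ ((∏ i, τ i : ℕ) : ℝ) ∧
      ((∏ i, τ i : ℕ) : ℝ) ≤ Real.exp (((r : ℝ) + 1) * ℓ / H) := by
  rw [mem_TT] at h
  have e : ∀ x : ℝ, Real.exp (x * ℓ / H) = ∏ _i : Fin ℓ, Real.exp (x / H) := fun x => by
    rw [prod_const, card_univ, Fintype.card_fin, ← Real.exp_nat_mul]
    congr 1
    ring
  rw [e, e]
  push_cast
  exact ⟨prod_le_prod (fun _ _ => (Real.exp_pos _).le) fun i _ => (mem_cl (h i)).2.1,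
    prod_le_prod (fun _ _ => by positivity) fun i _ => (mem_cl (h i)).2.2⟩

/-- the tuples with the same product of elements -/
theorem card_fib (H r ℓ : ℕ) (z : Gi) [DecidableEq Gi] :
    ((TT H r ℓ).filter (fun τ => Gq (∏ i, τ i) = z)).card ≤ ℓ.factorial := by
  refine le_trans (card_le_card ?_) (smoo_ge_le (cl H r) (fun p hp => (mem_cl hp).1.1) ℓ (nm z))
  intro τ hτ
  rw [mem_filter] at hτ ⊢
  refine ⟨hτ.1, ?_⟩
  rw [← nm_Gq (TT_gd hτ.1), hτ.2]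

open scoped Classical in
/-- the number of tuples whose product of elements divides `n` -/
noncomputable def nd (H r ℓ : ℕ) (n : Gi) : ℕ :=
  ((TT H r ℓ).filter (fun τ => Gq (∏ i, τ i) ∣ n)).card

theorem nd_sq {H : ℕ} (hH : 1 ≤ H) (r ℓ : ℕ) {X : ℝ} (hX : 1 ≤ X) :
    ∑ n ∈ ball 0 1 X, (nd H r ℓ n : ℝ) ^ 2 ≤ (9 * ((ℓ.factorial : ℝ) ^ 2 * Real.exp 4 ^ 3)) * X := by
  classical
  set T := TT H r ℓ with hT
  have hprime : ∀ p ∈ cl H r, p.Prime := fun p hp => (mem_cl hp).1.1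
  have h1 : ∀ n : Gi, (nd H r ℓ n : ℝ) ^ 2 ≤
      ∑ P ∈ T, ∑ Q ∈ T, (if Gq (Nat.lcm (∏ i, P i) (∏ i, Q i)) ∣ n then (1 : ℝ) else 0) := by
    intro n
    have hc : (nd H r ℓ n : ℝ) = ∑ P ∈ T, (if Gq (∏ i, P i) ∣ n then (1 : ℝ) else 0) := by
      unfold nd
      rw [card_filter]
      push_cast
      rfl
    rw [hc, pow_two, sum_mul_sum]
    refine sum_le_sum fun P hP => sum_le_sum fun Q hQ => ?_
    by_cases h2 : Gq (∏ i, P i) ∣ n
    · by_cases h3 : Gq (∏ i, Q i) ∣ n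
      · rw [if_pos h2, if_pos h3, if_pos (lcm_dvd (TT_gd hP) (TT_gd hQ) h2 h3)]
        norm_num
      · rw [if_pos h2, if_neg h3]
        split_ifs <;> norm_num
    · rw [if_neg h2]
      split_ifs <;> norm_num
  have h2 : ∀ P ∈ T, ∀ Q ∈ T, ∑ n ∈ ball 0 1 X,
      (if Gq (Nat.lcm (∏ i, P i) (∏ i, Q i)) ∣ n then (1 : ℝ) else 0) ≤
      9 * X * (1 / ((Nat.lcm (∏ i, P i) (∏ i, Q i) : ℕ) : ℝ)) := by
    intro P hP Q hQ
    have hg := (TT_gd hP).lcm (TT_gd hQ)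
    have h3 := card_mult (Gq_ne hg) (X := X) (by linarith)
    rw [nm_Gq hg] at h3
    rw [← sum_filter, sum_const, nsmul_eq_mul, mul_one]
    refine h3.trans (le_of_eq ?_)
    ring
  set A := T.image (fun P => ∏ i, P i) with hA
  have hAdvd : ∀ a ∈ A, a ∣ (∏ p ∈ cl H r, p) ^ ℓ := by
    intro a ha
    obtain ⟨P, hP, rfl⟩ := mem_image.mp ha
    exact smoo_prod_dvd _ _ (mem_TT.1 hP)
  have hN0 : (∏ p ∈ cl H r, p) ^ ℓ ≠ 0 :=
    pow_ne_zero _ (prod_ne_zero_iff.mpr (fun p hp => (hprime p hp).ne_zero))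
  have hstep2 : ∑ P ∈ T, ∑ Q ∈ T, (1 / ((Nat.lcm (∏ i, P i) (∏ i, Q i) : ℕ) : ℝ)) ≤
      (ℓ.factorial : ℝ) ^ 2 * ∑ a ∈ A, ∑ b ∈ A, 1 / ((Nat.lcm a b : ℕ) : ℝ) := by
    calc ∑ P ∈ T, ∑ Q ∈ T, (1 / ((Nat.lcm (∏ i, P i) (∏ i, Q i) : ℕ) : ℝ))
        ≤ ∑ P ∈ T, (ℓ.factorial : ℝ) * ∑ b ∈ A, 1 / ((Nat.lcm (∏ i, P i) b : ℕ) : ℝ) := by
          apply sum_le_sum
          intro P _
          exact smoo_tuple_sum _ hprime ℓ (fun b => 1 / ((Nat.lcm (∏ i, P i) b : ℕ) : ℝ))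
            (fun _ => by positivity)
      _ ≤ (ℓ.factorial : ℝ) * ∑ a ∈ A, (ℓ.factorial : ℝ) * ∑ b ∈ A, 1 / ((Nat.lcm a b : ℕ) : ℝ) :=
          smoo_tuple_sum _ hprime ℓ (fun a => (ℓ.factorial : ℝ) * ∑ b ∈ A, 1 / ((Nat.lcm a b : ℕ) : ℝ))
            (fun _ => by positivity)
      _ = _ := by rw [← mul_sum]; ring
  have hstep3 := smoo_lcm_sum _ hN0 A hAdvd
  have hstep4 := smoo_sigma_cell (cl H r) hprime ℓ
  have hstep5 : ∑ d ∈ ((∏ p ∈ cl H r, p) ^ ℓ).divisors, 1 / (d : ℝ) ≤ Real.exp 4 := by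
    refine le_trans hstep4 (Real.exp_le_exp.mpr ?_)
    have := cl_sum hH r
    linarith
  have hstep6 : (∑ d ∈ ((∏ p ∈ cl H r, p) ^ ℓ).divisors, 1 / (d : ℝ)) ^ 3 ≤ Real.exp 4 ^ 3 :=
    pow_le_pow_left₀ (sum_nonneg (fun _ _ => by positivity)) hstep5 3
  calc ∑ n ∈ ball 0 1 X, (nd H r ℓ n : ℝ) ^ 2
      ≤ ∑ n ∈ ball 0 1 X, ∑ P ∈ T, ∑ Q ∈ T,
          (if Gq (Nat.lcm (∏ i, P i) (∏ i, Q i)) ∣ n then (1 : ℝ) else 0) :=
        sum_le_sum fun n _ => h1 n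
    _ = ∑ P ∈ T, ∑ Q ∈ T, ∑ n ∈ ball 0 1 X,
          (if Gq (Nat.lcm (∏ i, P i) (∏ i, Q i)) ∣ n then (1 : ℝ) else 0) := by
        rw [sum_comm]
        exact sum_congr rfl fun P _ => sum_comm
    _ ≤ ∑ P ∈ T, ∑ Q ∈ T, 9 * X * (1 / ((Nat.lcm (∏ i, P i) (∏ i, Q i) : ℕ) : ℝ)) :=
        sum_le_sum fun P hP => sum_le_sum fun Q hQ => h2 P hP Q hQ
    _ = 9 * X * ∑ P ∈ T, ∑ Q ∈ T, (1 / ((Nat.lcm (∏ i, P i) (∏ i, Q i) : ℕ) : ℝ)) := by
        simp only [← mul_sum]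
    _ ≤ 9 * X * ((ℓ.factorial : ℝ) ^ 2 * Real.exp 4 ^ 3) := by
        refine mul_le_mul_of_nonneg_left (hstep2.trans ?_) (by linarith)
        exact mul_le_mul_of_nonneg_left (hstep3.trans hstep6) (by positivity)
    _ = _ := by ring

end Pool.Agent.N771.MS
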