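import Pool.Agent.N771.MS.B2
import Pool.Agent.W822.GA.Momp

/-!
# Project MS (helper912), part MOM2 (helper771): the moments
-/

set_option autoImplicit false

namespace Pool.Agent.N771.MS

open Finset
open Pool.Agent.N912.MS
open Pool.Agent.W78.GA
open Pool.Agent.H970R2.X (cellP P1)
open Pool.Agent.W822.GA (bg_nonneg bg_le bg_ne)

theorem chi_prod (κ : ℤ × ℤ) {ι : Type} (s : Finset ι) (f : ι → Gi) (hf : ∀ i ∈ s, f i ≠ 0) :
    chi κ (∏ i ∈ s, f i) = ∏ i ∈ s, chi κ (f i) := by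
  classical
  have key : chi κ (∏ i ∈ s, f i) = ∏ i ∈ s, chi κ (f i) ∧ ∏ i ∈ s, f i ≠ 0 := by
    induction s using Finset.induction_on with
    | empty =>
      simp only [prod_empty]
      exact ⟨chi_one κ, fun h => by
        have h1 := nm_one (t := 0) (c := 1)
        rw [h, nm_zero] at h1
        exact absurd h1 (by norm_num)⟩
    | insert i s hi ih =>
      obtain ⟨h1, h2⟩ := ih fun j hj => hf j (mem_insert_of_mem hj)
      have h3 := hf i (mem_insert_self i s)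
      rw [prod_insert hi, prod_insert hi, chi_mul κ h3 h2, h1]
      refine ⟨rfl, fun h0 => ?_⟩
      have h4 : nm (f i * ∏ i ∈ s, f i) = 0 := by rw [h0, nm_zero]
      rw [nm_mul] at h4
      rcases Nat.mul_eq_zero.1 h4 with h5 | h5
      · exact h3 ((nm_eq_zero hD).1 h5)
      · exact h2 ((nm_eq_zero hD).1 h5)
  exact key.1

theorem Gq_tuple {H r ℓ : ℕ} {τ : Fin ℓ → ℕ} (h : τ ∈ TT H r ℓ) :
    Gq (∏ i, τ i) = ∏ i, gq (τ i) := by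
  rw [mem_TT] at h
  rw [Gq_prod _ _ fun i _ => (mem_cl (h i)).1.1.ne_zero]
  exact prod_congr rfl fun i _ => Gq_prime (mem_cl (h i)).1.1

/-- the coefficient of a tuple -/
noncomputable def cf (f : Gi → ℝ) {ℓ : ℕ} (τ : Fin ℓ → ℕ) : ℂ :=
  (-1) ^ ℓ * ∏ i, ((f (gq (τ i)) : ℂ) / (τ i : ℂ))

theorem P_pow (f : Gi → ℝ) (H r ℓ : ℕ) (κ : ℤ × ℤ) :
    P2 f H r κ ^ ℓ = ∑ τ ∈ TT H r ℓ, cf f τ * chi κ (Gq (∏ i, τ i)) := by
  unfold P2
  rw [neg_pow, Finset.sum_pow', mul_sum]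
  refine sum_congr rfl fun τ hτ => ?_
  have h : τ ∈ TT H r ℓ := hτ
  have h' := mem_TT.1 h
  rw [Gq_tuple h, chi_prod κ _ _ fun i _ h0 => by
    have h1 := (mem_cl (h' i)).1
    have h2 := h1.2
    rw [h0, nm_zero] at h2
    exact h1.1.ne_zero h2.symm]
  unfold cf
  rw [mul_assoc, ← prod_mul_distrib]
  congr 1
  refine prod_congr rfl fun i _ => ?_
  ring

theorem cf_norm {f : Gi → ℝ} (hf : CMR f) {H r ℓ : ℕ} {τ : Fin ℓ → ℕ} (_ : τ ∈ TT H r ℓ) :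
    ‖cf f τ‖ ≤ 1 / ((∏ i, τ i : ℕ) : ℝ) := by
  unfold cf
  rw [norm_mul, norm_pow, norm_neg, norm_one, one_pow, one_mul, norm_prod]
  push_cast
  rw [one_div, ← Finset.prod_inv_distrib]
  refine prod_le_prod (fun _ _ => norm_nonneg _) fun i _ => ?_
  rw [norm_div, Complex.norm_real, Complex.norm_natCast, Real.norm_eq_abs, div_eq_mul_inv]
  have h1 := hf.bd (gq (τ i))
  have h2 : (0 : ℝ) ≤ ((τ i : ℕ) : ℝ)⁻¹ := by positivity
  nlinarith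

theorem TT_sum {H : ℕ} (hH : 1 ≤ H) (r ℓ : ℕ) :
    ∑ τ ∈ TT H r ℓ, 1 / ((∏ i, τ i : ℕ) : ℝ) ≤ 2 ^ ℓ := by
  have h1 : ∑ τ ∈ TT H r ℓ, 1 / ((∏ i, τ i : ℕ) : ℝ) = (∑ p ∈ cl H r, 1 / (p : ℝ)) ^ ℓ := by
    rw [Finset.sum_pow']
    refine sum_congr rfl fun τ _ => ?_
    push_cast
    rw [one_div, ← Finset.prod_inv_distrib]
    exact prod_congr rfl fun i _ => (one_div _).symm
  rw [h1]
  exact pow_le_pow_left₀ (sum_nonneg fun _ _ => by positivity) (cl_sum hH r) ℓ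

theorem fin_bd {C : ℝ} (hC : 0 ≤ C) (ℓ : ℕ) :
    C * 4 ^ ℓ * (ℓ.factorial : ℝ) ^ 2 ≤ (C + 4) ^ (ℓ + 1) * (ℓ.factorial : ℝ) ^ 8 := by
  have hfac : (1 : ℝ) ≤ ℓ.factorial := by exact_mod_cast Nat.succ_le_of_lt ℓ.factorial_pos
  have h8 : (ℓ.factorial : ℝ) ^ 2 ≤ (ℓ.factorial : ℝ) ^ 8 :=
    pow_le_pow_right₀ hfac (by norm_num)
  have h4 : C * 4 ^ ℓ ≤ (C + 4) ^ (ℓ + 1) := by
    rw [pow_succ, mul_comm]
    have : (4 : ℝ) ^ ℓ ≤ (C + 4) ^ ℓ := pow_le_pow_left₀ (by norm_num) (by linarith) ℓ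
    exact mul_le_mul this (by linarith) hC (by positivity)
  exact mul_le_mul h4 h8 (by positivity) (by positivity)

theorem exp_ratio {H : ℕ} (hH : 1 ≤ H) (r ℓ : ℕ) :
    Real.exp (((r : ℝ) + 1) * ℓ / H) ≤ Real.exp ((r : ℝ) * ℓ / H) * Real.exp ℓ := by
  rw [← Real.exp_add]
  refine Real.exp_le_exp.2 ?_
  have hH' : (1 : ℝ) ≤ H := by exact_mod_cast hH
  have e : ((r : ℝ) + 1) * ℓ / H = (r : ℝ) * ℓ / H + ℓ / H := by ring
  rw [e]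
  have : (ℓ : ℝ) / H ≤ ℓ := div_le_self (Nat.cast_nonneg ℓ) hH'
  linarith

/-- the moments of `P` -/
theorem momP {C : ℝ} (hC : 0 < C) (hls : ∀ (X : ℝ) (K : ℕ) (s : Finset Gi) (a : Gi → ℂ), 1 ≤ X →
    1 ≤ K → s ⊆ win 0 1 X → ∑ κ ∈ FB K, ‖DP2 s a κ‖ ^ 2 ≤ C * (K + X) * ∑ z ∈ s, ‖a z‖ ^ 2)
    {f : Gi → ℝ} (hf : CMR f) (H r ℓ K : ℕ) (hH : 1 ≤ H) (hK : 1 ≤ K)
    (hKe : (K : ℝ) ≤ Real.exp ((r : ℝ) * ℓ / H)) :
    ∑ κ ∈ FB K, ‖P2 f H r κ‖ ^ (2 * ℓ) ≤ (2 * C + 4) ^ (ℓ + 1) * (ℓ.factorial : ℝ) ^ 8 := by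
  classical
  set A : ℝ := Real.exp ((r : ℝ) * ℓ / H) with hA
  have hA1 : 1 ≤ A := Real.one_le_exp (by positivity)
  set φ : (Fin ℓ → ℕ) → Gi := fun τ => Gq (∏ i, τ i) with hφ
  set a : Gi → ℂ := fun z => ∑ τ ∈ (TT H r ℓ).filter (fun τ => φ τ = z), cf f τ with ha
  have h1 : ∀ κ, P2 f H r κ ^ ℓ = DP2 ((TT H r ℓ).image φ) a κ := fun κ => by
    rw [P_pow]
    exact dp_image (TT H r ℓ) φ (cf f) κ
  have hs : ∀ z ∈ (TT H r ℓ).image φ, A ≤ nm z ∧ (nm z : ℝ) ≤ A * Real.exp ℓ := by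
    intro z hz
    obtain ⟨τ, hτ, rfl⟩ := mem_image.1 hz
    have h2 := TT_bd hτ
    have h3 : nm (φ τ) = ∏ i, τ i := nm_Gq (TT_gd hτ)
    rw [h3]
    exact ⟨h2.1, h2.2.trans (exp_ratio hH r ℓ)⟩
  have h2 := ls_wide hC hls hA1 ℓ K hK _ a hs
  have hn : ∀ τ ∈ TT H r ℓ, ‖cf f τ‖ ≤ 1 / (nm (φ τ) : ℝ) := fun τ hτ => by
    have h3 : nm (φ τ) = ∏ i, τ i := nm_Gq (TT_gd hτ)
    rw [h3]
    exact cf_norm hf hτ
  have h3 : ∀ z ∈ (TT H r ℓ).image φ, ((K : ℝ) + nm z) * ‖a z‖ ^ 2 ≤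
      2 * ℓ.factorial * ∑ τ ∈ (TT H r ℓ).filter (fun τ => φ τ = z), 1 / (nm (φ τ) : ℝ) := by
    intro z hz
    have hz1 := (hs z hz).1
    have hz0 : (0 : ℝ) < nm z := by linarith
    have h4 : ‖a z‖ ≤ ∑ τ ∈ (TT H r ℓ).filter (fun τ => φ τ = z), 1 / (nm (φ τ) : ℝ) :=
      norm_sum_le_of_le _ fun τ hτ => hn τ (mem_filter.1 hτ).1
    have h5 : ∑ τ ∈ (TT H r ℓ).filter (fun τ => φ τ = z), 1 / (nm (φ τ) : ℝ) ≤
        ℓ.factorial / nm z := by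
      have h6 : ∑ τ ∈ (TT H r ℓ).filter (fun τ => φ τ = z), 1 / (nm (φ τ) : ℝ) =
          ∑ τ ∈ (TT H r ℓ).filter (fun τ => φ τ = z), 1 / (nm z : ℝ) :=
        sum_congr rfl fun τ hτ => by rw [(mem_filter.1 hτ).2]
      rw [h6, sum_const, nsmul_eq_mul, mul_one_div]
      have h7 : (((TT H r ℓ).filter (fun τ => φ τ = z)).card : ℝ) ≤ ℓ.factorial := by
        exact_mod_cast card_fib H r ℓ z
      gcongr
    set S := ∑ τ ∈ (TT H r ℓ).filter (fun τ => φ τ = z), 1 / (nm (φ τ) : ℝ) with hS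
    have hS0 : 0 ≤ S := sum_nonneg fun _ _ => by positivity
    have h8 : ‖a z‖ ^ 2 ≤ ℓ.factorial / nm z * S := by
      rw [pow_two]
      exact mul_le_mul (h4.trans h5) h4 (norm_nonneg _) (by positivity)
    calc ((K : ℝ) + nm z) * ‖a z‖ ^ 2 ≤ (2 * nm z) * (ℓ.factorial / nm z * S) := by
          refine mul_le_mul ?_ h8 (by positivity) (by positivity)
          linarith
      _ = 2 * ℓ.factorial * S := by field_simp
  have h4 : ∑ z ∈ (TT H r ℓ).image φ, ((K : ℝ) + nm z) * ‖a z‖ ^ 2 ≤ 2 * ℓ.factorial * 2 ^ ℓ := by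
    refine (sum_le_sum h3).trans ?_
    rw [← mul_sum, sum_fiberwise_of_maps_to (fun τ hτ => mem_image_of_mem φ hτ)]
    refine mul_le_mul_of_nonneg_left (le_trans (le_of_eq ?_) (TT_sum hH r ℓ)) (by positivity)
    refine sum_congr rfl fun τ hτ => ?_
    have h5 : nm (φ τ) = ∏ i, τ i := nm_Gq (TT_gd hτ)
    rw [h5]
  have hfac : (1 : ℝ) ≤ ℓ.factorial := by exact_mod_cast Nat.succ_le_of_lt ℓ.factorial_pos
  have hl : (ℓ : ℝ) + 1 ≤ 2 ^ ℓ := by exact_mod_cast Nat.lt_two_pow_self (n := ℓ)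
  calc ∑ κ ∈ FB K, ‖P2 f H r κ‖ ^ (2 * ℓ)
      = ∑ κ ∈ FB K, ‖DP2 ((TT H r ℓ).image φ) a κ‖ ^ 2 := by
        refine sum_congr rfl fun κ _ => ?_
        rw [← h1, norm_pow, ← pow_mul, mul_comm ℓ 2]
    _ ≤ (ℓ + 1) * C * ∑ z ∈ (TT H r ℓ).image φ, ((K : ℝ) + nm z) * ‖a z‖ ^ 2 := h2
    _ ≤ (ℓ + 1) * C * (2 * ℓ.factorial * 2 ^ ℓ) := by gcongr
    _ ≤ 2 ^ ℓ * C * (2 * (ℓ.factorial : ℝ) ^ 2 * 2 ^ ℓ) := by
        have : (ℓ.factorial : ℝ) ≤ (ℓ.factorial : ℝ) ^ 2 := by nlinarith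
        gcongr
    _ = (2 * C) * 4 ^ ℓ * (ℓ.factorial : ℝ) ^ 2 := by
        have : (4 : ℝ) ^ ℓ = 2 ^ ℓ * 2 ^ ℓ := by rw [← mul_pow]; norm_num
        rw [this]
        ring
    _ ≤ (2 * C + 4) ^ (ℓ + 1) * (ℓ.factorial : ℝ) ^ 8 := fin_bd (by linarith) ℓ

/-! ### The function `G` -/

/-- the support of the window -/
noncomputable def SG (Z : ℝ) : Finset Gi :=
  open scoped Classical in (ball 0 1 (Real.exp 1 * Z)).filter (fun z => bg Z z ≠ 0)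

theorem mem_SG {Z : ℝ} (hZ : 0 < Z) {z : Gi} (h : z ∈ SG Z) :
    z ≠ 0 ∧ Z / Real.exp 1 ≤ (nm z : ℝ) ∧ (nm z : ℝ) ≤ Real.exp 1 * Z := by
  classical
  unfold SG at h
  rw [mem_filter, mem_ball hD] at h
  obtain ⟨h0, h1, h2⟩ := bg_ne h.2
  have hpos : (0 : ℝ) < nm z := by exact_mod_cast h0
  have he := Real.exp_pos 1
  refine ⟨(one_le_nm hD).1 h0, ?_, h.1.2⟩
  rw [← Real.log_le_log_iff (by positivity) hpos, Real.log_div hZ.ne' he.ne', Real.log_exp]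
  exact h1

theorem G_filter (f : Gi → ℝ) (Z : ℝ) (κ : ℤ × ℤ) :
    G2 f Z κ = ∑ z ∈ SG Z, ((f z : ℂ) * (bg Z z : ℂ)) * chi κ z := by
  classical
  unfold G2 DP2 SG
  rw [Finset.sum_filter_of_ne]
  intro n _ hn h0
  apply hn
  rw [h0]
  simp

theorem co_norm {f : Gi → ℝ} (hf : CMR f) (Z : ℝ) (z : Gi) :
    ‖(f z : ℂ) * (bg Z z : ℂ)‖ ≤ 1 / nm z := by
  rw [norm_mul, Complex.norm_real, Complex.norm_real, Real.norm_of_nonneg (bg_nonneg Z z),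
    Real.norm_eq_abs]
  calc |f z| * bg Z z ≤ 1 * bg Z z := mul_le_mul_of_nonneg_right (hf.bd z) (bg_nonneg Z z)
    _ = bg Z z := one_mul _
    _ ≤ 1 / nm z := bg_le Z z

/-- the second moment of `G` -/
theorem mom0 {C : ℝ} (hC : 0 < C) (hls : ∀ (X : ℝ) (K : ℕ) (s : Finset Gi) (a : Gi → ℂ), 1 ≤ X →
    1 ≤ K → s ⊆ win 0 1 X → ∑ κ ∈ FB K, ‖DP2 s a κ‖ ^ 2 ≤ C * (K + X) * ∑ z ∈ s, ‖a z‖ ^ 2)
    {f : Gi → ℝ} (hf : CMR f) (K : ℕ) (Z : ℝ) (hZ : 3 ≤ Z) (hK : 1 ≤ K) :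
    ∑ κ ∈ FB K, ‖G2 f Z κ‖ ^ 2 ≤ (9 * C * Real.exp 1 ^ 3) * (1 + (K : ℝ) / Z) := by
  have hZ0 : 0 < Z := by linarith
  set e := Real.exp 1 with he
  have he0 : 0 < e := Real.exp_pos 1
  have he1 : 1 ≤ e := Real.one_le_exp zero_le_one
  have he2 : e ≤ Real.exp 2 := Real.exp_le_exp.2 (by norm_num)
  have h1 := hls Z K (SG Z) (fun z => (f z : ℂ) * (bg Z z : ℂ)) (by linarith) hK (by
    intro z hz
    obtain ⟨h0, h2, h3⟩ := mem_SG hZ0 hz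
    rw [mem_win hD]
    refine ⟨(one_le_nm hD).2 h0, ?_, ?_⟩
    · refine le_trans ?_ h2
      exact div_le_div_of_nonneg_left hZ0.le he0 he2
    · refine h3.trans ?_
      exact mul_le_mul_of_nonneg_right he2 hZ0.le)
  have h2 : ∑ z ∈ SG Z, ‖(f z : ℂ) * (bg Z z : ℂ)‖ ^ 2 ≤ 9 * (e * Z) * (e / Z) ^ 2 := by
    calc ∑ z ∈ SG Z, ‖(f z : ℂ) * (bg Z z : ℂ)‖ ^ 2 ≤ ∑ _z ∈ SG Z, (e / Z) ^ 2 := by
          refine sum_le_sum fun z hz => ?_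
          obtain ⟨h0, h2, h3⟩ := mem_SG hZ0 hz
          have hze : 0 < Z / e := by positivity
          have hinv : 1 / (nm z : ℝ) ≤ e / Z := by
            rw [← one_div_div Z e]
            exact one_div_le_one_div_of_le hze h2
          exact pow_le_pow_left₀ (norm_nonneg _) ((co_norm hf Z z).trans hinv) 2
      _ = (SG Z).card * (e / Z) ^ 2 := by rw [sum_const, nsmul_eq_mul]
      _ ≤ 9 * (e * Z) * (e / Z) ^ 2 := by
          refine mul_le_mul_of_nonneg_right ?_ (by positivity)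
          have h3 : (SG Z).card ≤ (ball 0 1 (e * Z)).card := by
            classical
            unfold SG
            exact card_filter_le _ _
          have h4 : ((SG Z).card : ℝ) ≤ (ball 0 1 (e * Z)).card := by exact_mod_cast h3
          exact h4.trans (card_ball (by nlinarith))
  calc ∑ κ ∈ FB K, ‖G2 f Z κ‖ ^ 2
      = ∑ κ ∈ FB K, ‖DP2 (SG Z) (fun z => (f z : ℂ) * (bg Z z : ℂ)) κ‖ ^ 2 := by
        refine sum_congr rfl fun κ _ => ?_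
        rw [G_filter]
        rfl
    _ ≤ _ := h1
    _ ≤ C * (K + Z) * (9 * (e * Z) * (e / Z) ^ 2) := by gcongr
    _ = (9 * C * e ^ 3) * (1 + (K : ℝ) / Z) := by
        field_simp
        ring

/-- the mixed moments -/
theorem momPG {C : ℝ} (hC : 0 < C) (hls : ∀ (X : ℝ) (K : ℕ) (s : Finset Gi) (a : Gi → ℂ), 1 ≤ X →
    1 ≤ K → s ⊆ win 0 1 X → ∑ κ ∈ FB K, ‖DP2 s a κ‖ ^ 2 ≤ C * (K + X) * ∑ z ∈ s, ‖a z‖ ^ 2)
    {f : Gi → ℝ} (hf : CMR f) (H r ℓ K : ℕ) (Z : ℝ) (hH : 1 ≤ H) (hZ : 3 ≤ Z) (hK : 1 ≤ K)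
    (hKe : (K : ℝ) ≤ Z * Real.exp ((r : ℝ) * ℓ / H)) :
    ∑ κ ∈ FB K, ‖P2 f H r κ ^ ℓ * G2 f Z κ‖ ^ 2 ≤
      ((9 * (C * (4 * (9 * Real.exp 4 ^ 3 * Real.exp 1)))) + 4) ^ (ℓ + 1) *
        (ℓ.factorial : ℝ) ^ 8 := by
  classical
  have hZ0 : 0 < Z := by linarith
  have he0 : 0 < Real.exp 1 := Real.exp_pos 1
  have he1 : 1 ≤ Real.exp 1 := Real.one_le_exp zero_le_one
  have he3 : Real.exp 1 ≤ 3 := Real.exp_one_lt_three.le
  set E : ℝ := Real.exp ((r : ℝ) * ℓ / H) with hE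
  have hE1 : 1 ≤ E := Real.one_le_exp (by positivity)
  set A : ℝ := E * (Z / Real.exp 1) with hA
  have hZe : 1 ≤ Z / Real.exp 1 := by
    rw [le_div_iff₀ he0]
    linarith
  have hA1 : 1 ≤ A := by nlinarith
  set I := TT H r ℓ ×ˢ SG Z with hI
  set φ : (Fin ℓ → ℕ) × Gi → Gi := fun x => Gq (∏ i, x.1 i) * x.2 with hφ
  set cc : (Fin ℓ → ℕ) × Gi → ℂ := fun x => cf f x.1 * ((f x.2 : ℂ) * (bg Z x.2 : ℂ)) with hcc
  set a : Gi → ℂ := fun z => ∑ x ∈ I.filter (fun x => φ x = z), cc x with ha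
  have hmem : ∀ x ∈ I, x.1 ∈ TT H r ℓ ∧ x.2 ∈ SG Z := fun x hx => mem_product.1 hx
  have hnm : ∀ x ∈ I, nm (φ x) = (∏ i, x.1 i) * nm x.2 := fun x hx => by
    show nm (Gq (∏ i, x.1 i) * x.2) = _
    rw [nm_mul, nm_Gq (TT_gd (hmem x hx).1)]
  have h1 : ∀ κ, P2 f H r κ ^ ℓ * G2 f Z κ = DP2 (I.image φ) a κ := fun κ => by
    rw [P_pow, G_filter, sum_mul_sum, ← sum_product', ← dp_image I φ cc κ]
    refine sum_congr rfl fun x hx => ?_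
    have h2 := hmem x hx
    rw [chi_mul κ (Gq_ne (TT_gd h2.1)) (mem_SG hZ0 h2.2).1]
    show _ = cf f x.1 * ((f x.2 : ℂ) * (bg Z x.2 : ℂ)) * _
    ring
  have hs : ∀ z ∈ I.image φ, A ≤ nm z ∧ (nm z : ℝ) ≤ A * Real.exp ((ℓ + 2 : ℕ) : ℝ) := by
    intro z hz
    obtain ⟨x, hx, rfl⟩ := mem_image.1 hz
    have h2 := TT_bd (hmem x hx).1
    obtain ⟨_, h4, h5⟩ := mem_SG hZ0 (hmem x hx).2
    rw [hnm x hx, Nat.cast_mul]
    constructor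
    · exact mul_le_mul h2.1 h4 (by positivity) (by positivity)
    · have h6 := h2.2.trans (exp_ratio hH r ℓ)
      have h7 : A * Real.exp ((ℓ + 2 : ℕ) : ℝ) = (E * Real.exp ℓ) * (Real.exp 1 * Z) := by
        rw [hA]
        push_cast
        rw [Real.exp_add, show (2 : ℝ) = 1 + 1 by norm_num, Real.exp_add]
        field_simp
      rw [h7]
      exact mul_le_mul h6 h5 (Nat.cast_nonneg _) (by positivity)
  have h2 := ls_wide hC hls hA1 (ℓ + 2) K hK _ a hs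
  have h3 : ∀ z ∈ I.image φ, ((K : ℝ) + nm z) * ‖a z‖ ^ 2 ≤
      4 * ((nd H r ℓ z : ℝ) ^ 2 / nm z) := by
    intro z hz
    have hz1 := (hs z hz).1
    have hz0 : (0 : ℝ) < nm z := by linarith
    have h4 : ‖a z‖ ≤ (nd H r ℓ z : ℝ) / nm z := by
      have h5 : ‖a z‖ ≤ ∑ x ∈ I.filter (fun x => φ x = z), 1 / (nm z : ℝ) := by
        refine norm_sum_le_of_le _ fun x hx => ?_
        obtain ⟨hx1, hx2⟩ := mem_filter.1 hx
        have h6 := cf_norm hf (hmem x hx1).1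
        have h7 := co_norm hf Z x.2
        rw [← hx2, hnm x hx1, Nat.cast_mul]
        show ‖cf f x.1 * ((f x.2 : ℂ) * (bg Z x.2 : ℂ))‖ ≤ _
        rw [norm_mul]
        refine (mul_le_mul h6 h7 (norm_nonneg _) (by positivity)).trans (le_of_eq ?_)
        rw [one_div_mul_one_div]
      refine h5.trans ?_
      rw [sum_const, nsmul_eq_mul, mul_one_div]
      have h8 : (I.filter (fun x => φ x = z)).card ≤ nd H r ℓ z := by
        unfold nd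
        refine card_le_card_of_injOn (fun x => x.1) ?_ ?_
        · intro x hx
          obtain ⟨hx1, hx2⟩ := mem_filter.1 (mem_coe.1 hx)
          rw [mem_coe, mem_filter]
          refine ⟨(hmem x hx1).1, ?_⟩
          rw [← hx2]
          exact dvd_mul_right _ _
        · intro x hx y hy hxy
          obtain ⟨hx1, hx2⟩ := mem_filter.1 (mem_coe.1 hx)
          obtain ⟨hy1, hy2⟩ := mem_filter.1 (mem_coe.1 hy)
          have hxy' : x.1 = y.1 := hxy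
          apply Prod.ext hxy'
          have h9 : Gq (∏ i, x.1 i) * x.2 = Gq (∏ i, x.1 i) * y.2 := by
            have h10 : Gq (∏ i, x.1 i) * x.2 = z := hx2
            have h11 : Gq (∏ i, y.1 i) * y.2 = z := hy2
            rw [h10, hxy', h11]
          have h12 : Gq (∏ i, x.1 i) * (x.2 - y.2) = 0 := by rw [mul_sub, h9, sub_self]
          have h13 : nm (Gq (∏ i, x.1 i) * (x.2 - y.2)) = 0 := by rw [h12, nm_zero]
          rw [nm_mul, nm_Gq (TT_gd (hmem x hx1).1)] at h13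
          rcases Nat.mul_eq_zero.1 h13 with h14 | h14
          · exact absurd h14 (TT_gd (hmem x hx1).1).1
          · exact sub_eq_zero.1 ((nm_eq_zero hD).1 h14)
      have h9 : ((I.filter (fun x => φ x = z)).card : ℝ) ≤ nd H r ℓ z := by exact_mod_cast h8
      gcongr
    have h5 : ‖a z‖ ^ 2 ≤ ((nd H r ℓ z : ℝ) / nm z) ^ 2 := pow_le_pow_left₀ (norm_nonneg _) h4 2
    have hKz : (K : ℝ) ≤ 3 * nm z := by
      have h6 : Z * E = A * Real.exp 1 := by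
        rw [hA]
        field_simp
      rw [h6] at hKe
      have h7 : A * Real.exp 1 ≤ nm z * 3 := mul_le_mul hz1 he3 he0.le hz0.le
      linarith
    calc ((K : ℝ) + nm z) * ‖a z‖ ^ 2 ≤ (4 * nm z) * ((nd H r ℓ z : ℝ) / nm z) ^ 2 := by
          refine mul_le_mul ?_ h5 (by positivity) (by positivity)
          linarith
      _ = 4 * ((nd H r ℓ z : ℝ) ^ 2 / nm z) := by field_simp
  have h4 := win_sum (g := fun z => (nd H r ℓ z : ℝ) ^ 2) (fun z => by positivity)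
    (B := 9 * ((ℓ.factorial : ℝ) ^ 2 * Real.exp 4 ^ 3)) (fun X hX => nd_sq hH r ℓ hX) hA1 (ℓ + 2)
    (I.image φ) hs
  have hl : ((ℓ + 2 : ℕ) : ℝ) + 1 ≤ 3 * 2 ^ ℓ := by
    have : (ℓ : ℝ) + 1 ≤ 2 ^ ℓ := by exact_mod_cast Nat.lt_two_pow_self (n := ℓ)
    have h1 : (1 : ℝ) ≤ 2 ^ ℓ := one_le_pow₀ (by norm_num)
    push_cast
    linarith
  set B0 : ℝ := 9 * Real.exp 4 ^ 3 * Real.exp 1 with hB0
  have hB00 : 0 ≤ B0 := by positivity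
  have h5 : ∑ z ∈ I.image φ, ((K : ℝ) + nm z) * ‖a z‖ ^ 2 ≤
      4 * ((3 * 2 ^ ℓ) * (B0 * (ℓ.factorial : ℝ) ^ 2)) := by
    refine (sum_le_sum h3).trans ?_
    rw [← mul_sum]
    refine mul_le_mul_of_nonneg_left (h4.trans ?_) (by norm_num)
    have e : 9 * ((ℓ.factorial : ℝ) ^ 2 * Real.exp 4 ^ 3) * Real.exp 1 =
        B0 * (ℓ.factorial : ℝ) ^ 2 := by
      rw [hB0]
      ring
    rw [e]
    exact mul_le_mul_of_nonneg_right hl (by positivity)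
  calc ∑ κ ∈ FB K, ‖P2 f H r κ ^ ℓ * G2 f Z κ‖ ^ 2
      = ∑ κ ∈ FB K, ‖DP2 (I.image φ) a κ‖ ^ 2 := sum_congr rfl fun κ _ => by rw [h1]
    _ ≤ (((ℓ + 2 : ℕ) : ℝ) + 1) * C * ∑ z ∈ I.image φ, ((K : ℝ) + nm z) * ‖a z‖ ^ 2 := h2
    _ ≤ (3 * 2 ^ ℓ) * C * (4 * ((3 * 2 ^ ℓ) * (B0 * (ℓ.factorial : ℝ) ^ 2))) := by
        gcongr
    _ = (9 * (C * (4 * B0))) * 4 ^ ℓ * (ℓ.factorial : ℝ) ^ 2 := by
        have : (4 : ℝ) ^ ℓ = 2 ^ ℓ * 2 ^ ℓ := by rw [← mul_pow]; norm_num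
        rw [this]
        ring
    _ ≤ (9 * (C * (4 * B0)) + 4) ^ (ℓ + 1) * (ℓ.factorial : ℝ) ^ 8 := fin_bd (by positivity) ℓ

/-- Part MOM2. -/
theorem mom2 (h : S_LS2) : S_MOM2 := by
  obtain ⟨C, hC, hls⟩ := h
  intro f hf
  refine ⟨⟨9 * C * Real.exp 1 ^ 3, by positivity, fun K Z hZ hK => mom0 hC hls hf K Z hZ hK⟩,
    ⟨2 * C + 4, by linarith, fun H r ℓ K hH hK hKe => momP hC hls hf H r ℓ K hH hK hKe⟩,
    ⟨(9 * (C * (4 * (9 * Real.exp 4 ^ 3 * Real.exp 1)))) + 4, ?_,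
      fun H r ℓ K Z hH hZ hK hKe => momPG hC hls hf H r ℓ K Z hH hZ hK hKe⟩⟩
  have : 0 ≤ 9 * (C * (4 * (9 * Real.exp 4 ^ 3 * Real.exp 1))) := by positivity
  linarith

end Pool.Agent.N771.MS
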